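import Pool.Agent.Results.MP_89a3f8_ag.TerminationOfFlips
import Pool.Agent.Run7.h530.FI.Fib

/-!
# Nef divisors define fibrations on toroidal covers of products of projective spaces and their images

Let `F i` be a form of degree `d i` in `n i + 1` variables whose zero set in the projective
`n i`-space is a smooth hypersurface, and let `K` be the function field of an abelian cover `Y` of the
product of the projective `n i`-spaces which is branched along the hypersurfaces `F i = 0` of the
factors: `K` is generated by the affine coordinates and by roots `z j`,
`z j ^ (m j) = ∏ i, (F i (x i) / x i 0 ^ (d i)) ^ (a j i)`. Equivalently, `Y` is a quotient of the product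
of the cyclic hypersurfaces `H i`, `w ^ (d i) = F i`, by a group of diagonal automorphisms. Let `X` be a
toroidal modification of `Y`, given by `fan` (the definitions are those of the starting result
`MP_89a3f8_ag.TerminationOfFlips`).

**The varieties `X_0`.** Let `X_0` be a normal projective variety with a generically finite morphism
`X → X_0`, for instance `X_0 = X` or the quotient of `X` by ANY finite group of automorphisms
(permutations of equal factors, automorphisms of the forms, ...). Its function field `K0` is a subfield
of `K` and `K / K0` is finite. On `X_0` there are `ℚ`-Cartier divisors `D 1, ..., D p`; `δ i P` is the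
coefficient of the pull back of `D i` at the prime divisor `P` over `X_0`. We assume that the pull back
of `D i` to the models of `K` is the sum of a toroidal divisor on `X` and of the divisor of a function
`g i`, that the `D i` are independent (if `∑ i, μ i * D i` and its negative are both linearly equivalent
to effective divisors then `μ = 0`), and that some combination `A` with the coefficients `μ0` is ample.

If all `n i ≥ 3` and `X_0` is `ℚ`-factorial, then the `D i` can be chosen as a basis of
`Pic(X_0) ⊗ ℚ`, since all divisors on `X` are toroidal up to linear equivalence and multiples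
(Lefschetz; this remark is not used and not proved here). Then multiples of `K_{X_0} + Δ`, for all
`ℚ`-divisors `Δ`, and of all Cartier divisors `L` are linearly equivalent to integral combinations of the
`D i`. If all `n i ≥ 2` the irregularity of `X_0` is `0`.

**Theorem.** There is a number `k ≥ 1` with the following property. Let `L` and `E` be integral
combinations of the `D i`; in the question `E` is a multiple of `K_{X_0} + Δ`. If `E` and `j * L - E` are
nef for some `j ≥ 1`, then `k j L` is base point free, `k E` is base point free, and `k E` is the pull back
of a Cartier divisor on the target `B` of the fibration `g : X_0 → B` defined by the multiples of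
`k j L` (`B` is `Proj` of the ring of sections of the multiples of `k j L`, and `L` is `ℚ`-linearly
equivalent to the pull back of an ample `ℚ`-divisor on `B`). So for klt pairs `(X_0, Δ)` of this kind `g`
is a relatively minimal log Calabi-Yau fiber space. This is stated without the morphism `g`
(`IsFreePullBack`): for every prime divisor `P` over `X_0` there are sections `s` of `k j L` and `e` of `k E`
which do not vanish at the centre of `P`, such that for all sections `e'` of `k E` one has
`e' / e = t / s` with a section `t` of `k j L`; so `e' / e` is a regular function on the affine open set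
`s ≠ 0` of `B`, and since `k E` is base point free `e` generates `k E` on the preimage of this set.

The number `k` is the same for all `L`, `E` and `j`. Klt singularities and the vanishing of the
irregularity are not used.

**The proof.** The multigraded ring of the sections of the combinations of the `D i` on `X_0` is finitely
generated (`fg_desc`, from `Q57.CX` in the starting tree), so that nef combinations are semiample with a
uniform multiple (`nef_free`); `E' = k E` and `M' = k (j L - E)` are base point free and
`k j L = E' + M'`. The products `s = e m` of sections of `E'` and `M'` are sections of `k j L`, and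
`e' / e = (e' m) / (e m)`.
-/

set_option autoImplicit false

open FF MvPolynomial Pool.Agent.W602.GT Run7.h530.FI
open Pool.Agent.Results.MP_89a3f8_ag.TerminationOfFlips (Smooth Admissible InCone IsFan affine
  coefficient)

namespace Pool.Agent.Results.MP_837b5f_ag.NefFibrations

/-- **Fibrations defined by nef divisors.** Let `X_0` be the image under a generically finite morphism of
a toroidal modification `X` of an abelian cover of a product of projective spaces branched along smooth
hypersurfaces of the factors, and let the `D i` be independent `ℚ`-Cartier divisors on `X_0`, some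
combination of which (with the coefficients `μ0`) is ample, whose pull backs to `X` are toroidal up to
linear equivalence. Then there is a number `k ≥ 1` such that for all `L = ∑ i, μ i * D i`,
`E = ∑ i, κ i * D i` and `j ≥ 1`: if `E` and `j * L - E` are nef then `k j L` is base point free, and `k E` is
base point free and the pull back of a Cartier divisor under the fibration defined by `k j L`. -/
theorem result (r N R p : ℕ) (n d : Fin r → ℕ) (hr : 1 ≤ r) (hn : ∀ i, 1 ≤ n i)
    (hd : ∀ i, 1 ≤ d i) (hN : N = ∑ i, n i)
    (F : ∀ i, MvPolynomial (Fin (n i + 1)) ℂ) (hF : ∀ i, (F i).IsHomogeneous (d i))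
    (hs : ∀ i, Smooth (F i)) (m : Fin R → ℕ) (hm : ∀ j, 1 ≤ m j) (a : Fin R → Fin r → ℕ)
    (hdiv : ∀ j i, m j ∣ a j i * d i)
    (K : Type) [Field K] [Algebra ℂ K] (x : ∀ i, Fin (n i + 1) → K) (hx0 : ∀ i, x i 0 ≠ 0)
    (hbas : IsTranscendenceBasis ℂ (affine x)) (z : Fin R → K)
    (hz : ∀ j, z j ^ m j = ∏ i, (aeval (x i) (F i) / x i 0 ^ d i) ^ a j i)
    (hgen : IntermediateField.adjoin ℂ (Set.range (affine x) ∪ Set.range z) = ⊤)
    (fan : Finset (Finset (Fin r → ℕ))) (hfan : IsFan m a fan)
    (c : Fin p → (Fin r → ℕ) → ℚ) (hc0 : ∀ i, c i 0 = 0) (β : Fin p → Fin r → ℤ)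
    (u : Finset (Fin r → ℕ) → Fin p → Fin r → ℚ)
    (hlin : ∀ σ ∈ fan, ∀ i v, Admissible m a v → InCone σ v → - c i v = ∑ k, u σ i k * v k)
    (K0 : Type) [Field K0] [Algebra ℂ K0] [Algebra K0 K] [IsScalarTower ℂ K0 K]
    [FiniteDimensional K0 K] (δ : Fin p → Place ℂ K0 → ℚ) (M : ℕ) (hM : 1 ≤ M)
    (hint : ∀ i P, Divisorial N P → ∃ b : ℤ, (M : ℚ) * δ i P = b)
    (g : Fin p → K) (hg : ∀ i, g i ≠ 0)
    (hδ : ∀ (i : Fin p) (Q : Place ℂ K) (P : Place ℂ K0) (e : ℕ), Over Q P e → Divisorial N Q →
      (e : ℚ) * δ i P = coefficient F d x (c i) (β i) Q + Q.ord (g i))
    (hind : ∀ μ : Fin p → ℤ, IsEff N δ μ → IsEff N δ (-μ) → μ = 0)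
    (μ0 : Fin p → ℤ) (hamp : IsAmple N δ μ0) :
    ∃ k : ℕ, 1 ≤ k ∧ ∀ (μ κ : Fin p → ℤ) (j : ℕ), 1 ≤ j →
      IsNef N δ μ0 κ → IsNef N δ μ0 (j • μ - κ) →
        IsFree N δ ((k * j) • μ) ∧ IsFreePullBack N δ ((k * j) • μ) (k • κ) :=
  nef_fibration (Run7.h530.FI.fg_desc hg (fun i Q P e h hQ => hδ i Q P e h hQ) hM hint
    (Pool.Agent.Q57.CX.main_cox (N := N) hr hn hN hd hF hs hx0 hbas hm hdiv hz hgen
      (S := fan) ⟨hfan.adm, hfan.full, hfan.cover⟩ hc0 (u := u) hlin (β := β)
      (δ := fun i P => coefficient F d x (c i) (β i) P) (fun _ _ => rfl))) hind hamp

end Pool.Agent.Results.MP_837b5f_ag.NefFibrations
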